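import Pool.Agent.H458.AR.Fld
import Pool.Graph.R_pool_sql_team_seeded_63374d34.N849.PQ.Int
import Pool.Graph.R_pool_sql_team_seeded_63374d34.N922.PQ.Core

/-!
# Part UNT of project AR (helper458): a unit representative in `ℤ[θ]`
-/

set_option autoImplicit false
set_option linter.all false

open IsDedekindDomain NumberField Polynomial
open scoped Classical

namespace Pool.Agent.H196.AR458

open Pool.Agent.N922.PQ
open Pool.Agent.N874.PP (Ev Sq1 U0)
open Pool.Agent.H458.AR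

section val

variable {O L : Type} [CommRing O] [IsDedekindDomain O] [Field L] [Algebra O L]
  [IsFractionRing O L]

/-- weak approximation: prescribed valuations at finitely many primes -/
theorem exists_val (S : Finset (HeightOneSpectrum O)) (y : HeightOneSpectrum O → L)
    (hy : ∀ 𝔓 ∈ S, y 𝔓 ≠ 0) :
    ∃ γ : L, γ ≠ 0 ∧ ∀ 𝔓 ∈ S, 𝔓.valuation L γ = 𝔓.valuation L (y 𝔓) := by
  rcases S.eq_empty_or_nonempty with rfl | ⟨𝔓₀, h𝔓₀⟩
  · exact ⟨1, one_ne_zero, by simp⟩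
  obtain ⟨c, hc⟩ := IsLocalization.exist_integer_multiples_of_finset (nonZeroDivisors O)
    (S.image y)
  have hc0 : algebraMap O L (c : O) ≠ 0 :=
    IsFractionRing.to_map_ne_zero_of_mem_nonZeroDivisors c.2
  have hw : ∀ 𝔓 : HeightOneSpectrum O, ∃ w : O, 𝔓 ∈ S →
      algebraMap O L w = algebraMap O L (c : O) * y 𝔓 := by
    intro 𝔓
    by_cases h : 𝔓 ∈ S
    · obtain ⟨w, hw⟩ := hc (y 𝔓) (Finset.mem_image_of_mem y h)
      exact ⟨w, fun _ => by rw [hw, Algebra.smul_def]⟩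
    · exact ⟨0, fun h' => absurd h' h⟩
  choose w hw using hw
  have hw0 : ∀ 𝔓 ∈ S, w 𝔓 ≠ 0 := by
    intro 𝔓 h h0
    have h1 := hw 𝔓 h
    rw [h0, map_zero] at h1
    exact mul_ne_zero hc0 (hy 𝔓 h) h1.symm
  have hN : ∀ 𝔓 : HeightOneSpectrum O, ∃ N : ℕ, 𝔓 ∈ S →
      WithZero.exp (-(N : ℤ)) < 𝔓.intValuation (w 𝔓) := by
    intro 𝔓
    by_cases h : 𝔓 ∈ S
    · refine ⟨(Associates.mk 𝔓.asIdeal).count (Associates.mk (Ideal.span {w 𝔓} : Ideal O)).factors
        + 1, fun _ => ?_⟩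
      rw [𝔓.intValuation_if_neg (hw0 𝔓 h), WithZero.exp_lt_exp]
      push_cast
      omega
    · exact ⟨0, fun h' => absurd h' h⟩
  choose N hN using hN
  obtain ⟨z, hz⟩ := IsDedekindDomain.exists_forall_sub_mem_ideal (s := S)
    (fun 𝔓 : HeightOneSpectrum O => 𝔓.asIdeal) N (fun 𝔓 _ => 𝔓.prime)
    (fun 𝔓 _ 𝔓' _ hne h => hne (HeightOneSpectrum.ext h)) (fun 𝔓 => w 𝔓.1)
  have hv : ∀ 𝔓 ∈ S, 𝔓.intValuation z = 𝔓.intValuation (w 𝔓) := by
    intro 𝔓 h
    have h1 : 𝔓.intValuation (z - w 𝔓) ≤ WithZero.exp (-(N 𝔓 : ℤ)) :=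
      (𝔓.intValuation_le_pow_iff_mem _ _).2 (hz 𝔓 h)
    have h2 := h1.trans_lt (hN 𝔓 h)
    have h3 : z = (z - w 𝔓) + w 𝔓 := by ring
    rw [h3]
    exact Valuation.map_add_eq_of_lt_right _ h2
  have hz0 : z ≠ 0 := by
    intro h0
    have h1 := hv 𝔓₀ h𝔓₀
    rw [h0, map_zero] at h1
    exact 𝔓₀.intValuation_ne_zero _ (hw0 𝔓₀ h𝔓₀) h1.symm
  have hz0' : algebraMap O L z ≠ 0 := by
    rw [Ne, IsFractionRing.to_map_eq_zero_iff]
    exact hz0
  refine ⟨algebraMap O L z / algebraMap O L (c : O), div_ne_zero hz0' hc0, fun 𝔓 h => ?_⟩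
  have hh : ∀ x : O, 𝔓.valuation L (algebraMap O L x) = 𝔓.intValuation x := fun x =>
    𝔓.valuation_of_algebraMap x
  have hv0 : 𝔓.valuation L (algebraMap O L (c : O)) ≠ 0 := (Valuation.ne_zero_iff _).2 hc0
  rw [map_div₀, hh, hv 𝔓 h, ← hh, hw 𝔓 h, map_mul, mul_div_cancel_left₀ _ hv0]

/-- an ideal which is contained in no prime over `p` is comaximal to `p` -/
theorem comax {p : O} (hp : p ≠ 0) (I : Ideal O)
    (h : ∀ 𝔓 : HeightOneSpectrum O, p ∈ 𝔓.asIdeal → ∃ d ∈ I, d ∉ 𝔓.asIdeal) :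
    ∃ d ∈ I, ∃ e : O, d + e * p = 1 := by
  by_cases htop : I ⊔ Ideal.span {p} = ⊤
  · have h1 : (1 : O) ∈ I ⊔ Ideal.span {p} := by rw [htop]; trivial
    obtain ⟨d, hd, q, hq, hdq⟩ := Submodule.mem_sup.1 h1
    obtain ⟨e, rfl⟩ := Ideal.mem_span_singleton'.1 hq
    exact ⟨d, hd, e, hdq⟩
  · exfalso
    obtain ⟨M, hM, hle⟩ := Ideal.exists_le_maximal _ htop
    have hpM : p ∈ M := hle (Ideal.mem_sup_right (Ideal.mem_span_singleton_self p))
    have hM0 : M ≠ ⊥ := by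
      intro h0
      rw [h0] at hpM
      exact hp (by simpa using hpM)
    obtain ⟨d, hd, hd'⟩ := h ⟨M, hM.isPrime, hM0⟩ hpM
    exact hd' (hle (Ideal.mem_sup_left hd))

end val

section fld

variable {L O : Type} [Field L] [NumberField L] [CommRing O] [IsDedekindDomain O]
  [Algebra O L] [IsFractionRing O L] [IsIntegralClosure O ℤ L]

theorem inj (x y : O) (h : algebraMap O L x = algebraMap O L y) : x = y :=
  IsFractionRing.injective O L h

/-- the ideal of denominators -/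
def den (β : L) : Ideal O where
  carrier := {d | ∃ r : O, algebraMap O L r = algebraMap O L d * β}
  add_mem' := by
    rintro x y ⟨r, hr⟩ ⟨s, hs⟩
    exact ⟨r + s, by rw [map_add, map_add, add_mul, hr, hs]⟩
  zero_mem' := ⟨0, by simp⟩
  smul_mem' := by
    rintro c x ⟨r, hr⟩
    exact ⟨c * r, by rw [map_mul, smul_eq_mul, map_mul, hr, mul_assoc]⟩

theorem mem_den {β : L} {d : O} : d ∈ den (O := O) β ↔
    ∃ r : O, algebraMap O L r = algebraMap O L d * β := Iff.rfl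

/-- an integer prime to `p` which is a denominator -/
theorem exists_int (p : ℕ) [hp : Fact p.Prime] (β : L)
    (hβ : ∀ 𝔓 : HeightOneSpectrum O, Ov (p : ℤ) 𝔓 → 𝔓.valuation L β ≤ 1) :
    ∃ m : ℤ, ¬ (p : ℤ) ∣ m ∧ ((m : ℤ) : O) ∈ den (O := O) β := by
  haveI : CharZero O := by
    refine ⟨fun m n hmn => ?_⟩
    have h1 := congrArg (algebraMap O L) hmn
    simpa using h1
  have hp0 : (((p : ℤ) : ℤ) : O) ≠ 0 := by
    have := hp.out.ne_zero
    exact_mod_cast this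
  obtain ⟨d, hd, e, hde⟩ := comax hp0 (den (O := O) β) (by
    intro 𝔓 h𝔓
    obtain ⟨n, d, hnd⟩ := 𝔓.exists_primeCompl_mul_eq_of_integer β (hβ 𝔓 h𝔓)
    exact ⟨d, ⟨n, by rw [← hnd, mul_comm]⟩, d.2⟩)
  obtain ⟨n, hn0, hn⟩ := exists_integral_multiples ℤ ℚ ({β} : Finset L)
  have hnI : ((n : ℤ) : O) ∈ den (O := O) β := by
    have h1 := hn β (Finset.mem_singleton_self β)
    obtain ⟨r, hr⟩ := (IsIntegralClosure.isIntegral_iff (R := ℤ) (A := O)).1 h1
    exact ⟨r, by rw [hr, map_intCast, zsmul_eq_mul]⟩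
  have key : ∀ (k : ℕ) (m : ℤ), (((p : ℤ) ^ k * m : ℤ) : O) ∈ den (O := O) β →
      ((m : ℤ) : O) ∈ den (O := O) β := by
    intro k
    induction k with
    | zero => intro m hm; simpa using hm
    | succ k ih =>
      intro m hm
      apply ih
      have h1 : (((p : ℤ) ^ k * m : ℤ) : O) = (((p : ℤ) ^ k * m : ℤ) : O) * d +
          e * (((p : ℤ) ^ (k + 1) * m : ℤ) : O) := by
        calc (((p : ℤ) ^ k * m : ℤ) : O) = (((p : ℤ) ^ k * m : ℤ) : O) * (d + e * (p : ℤ)) := by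
              rw [hde, mul_one]
          _ = _ := by push_cast; ring
      rw [h1]
      exact Ideal.add_mem _ (Ideal.mul_mem_left _ _ hd) (Ideal.mul_mem_left _ _ hm)
  have hfm : FiniteMultiplicity (p : ℤ) n :=
    Int.finiteMultiplicity_iff.2 ⟨by simpa using hp.out.one_lt.ne', hn0⟩
  obtain ⟨m, hm, hpm⟩ := hfm.exists_eq_pow_mul_and_not_dvd
  refine ⟨m, hpm, key (multiplicity (p : ℤ) n) m ?_⟩
  rw [← hm]
  exact hnI

/-- the valuation of an element of `O` -/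
theorem val_eq_one_iff {𝔓 : HeightOneSpectrum O} (x : O) :
    𝔓.valuation L (algebraMap O L x) = 1 ↔ x ∉ 𝔓.asIdeal := by
  rw [show 𝔓.valuation L (algebraMap O L x) = 𝔓.intValuation x from 𝔓.valuation_of_algebraMap x,
    ← not_iff_not, not_not, ← 𝔓.intValuation_lt_one_iff_mem]
  exact ⟨fun h => lt_of_le_of_ne (𝔓.intValuation_le_one x) h, fun h => h.ne⟩

theorem exists_poly {a b : ℤ} {θ : L} (hc : IsCub a b θ) (hsq : Squarefree (dsc a b)) (x : O) :
    ∃ q : ℤ[X], aeval θ q = algebraMap O L x := by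
  have h1 : IsIntegral ℤ (algebraMap O L x) :=
    (IsIntegralClosure.isIntegral_iff (R := ℤ) (A := O)).2 ⟨x, rfl⟩
  obtain ⟨v, hv⟩ := (Pool.Agent.N849.PQ.int L a b θ hc hsq _).1 h1
  refine ⟨C (v 0) + C (v 1) * X + C (v 2) * X ^ 2, ?_⟩
  rw [hv]
  simp

theorem unt : Pool.Agent.H458.AR.S_UNT := by
  intro L O _ _ _ _ _ _ _ a b θ hc hsq p hp α hα hev
  haveI : CharZero O := by
    refine ⟨fun m n hmn => ?_⟩
    have h1 := congrArg (algebraMap O L) hmn
    simpa using h1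
  have hp0 : (((p : ℤ) : ℤ) : O) ≠ 0 := by
    have := hp.out.ne_zero
    exact_mod_cast this
  have hfin : {𝔓 : HeightOneSpectrum O | Ov (p : ℤ) 𝔓}.Finite := by
    refine (Ideal.finite_factors (I := Ideal.span {((p : ℤ) : O)}) ?_).subset ?_
    · rw [Ne, Ideal.zero_eq_bot, Ideal.span_singleton_eq_bot]
      exact hp0
    · intro 𝔓 h
      exact Ideal.dvd_span_singleton.2 h
  -- the valuations of `γ₀`
  have hy : ∀ 𝔓 : HeightOneSpectrum O, ∃ y : L, y ≠ 0 ∧ (Ov (p : ℤ) 𝔓 →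
      𝔓.valuation L α * 𝔓.valuation L y ^ 2 = 1) := by
    intro 𝔓
    by_cases h : Ov (p : ℤ) 𝔓
    · obtain ⟨y, hy⟩ := hev 𝔓 h
      have hα0 : 𝔓.valuation L α ≠ 0 := (Valuation.ne_zero_iff _).2 hα
      have hy0 : y ≠ 0 := by
        rintro rfl
        rw [map_zero] at hy
        exact hα0 (by rw [hy]; simp)
      have hy0' : 𝔓.valuation L y ≠ 0 := (Valuation.ne_zero_iff _).2 hy0
      refine ⟨y⁻¹, inv_ne_zero hy0, fun _ => ?_⟩
      rw [hy, map_inv₀, inv_pow, mul_inv_cancel₀ (pow_ne_zero 2 hy0')]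
    · exact ⟨1, one_ne_zero, fun h' => absurd h' h⟩
  choose y hy0 hy1 using hy
  obtain ⟨γ₀, hγ₀, hγ₁⟩ := exists_val hfin.toFinset y (fun 𝔓 _ => hy0 𝔓)
  have hβ : ∀ 𝔓 : HeightOneSpectrum O, Ov (p : ℤ) 𝔓 → 𝔓.valuation L (α * γ₀ ^ 2) = 1 := by
    intro 𝔓 h
    rw [map_mul, map_pow, hγ₁ 𝔓 (hfin.mem_toFinset.2 h), hy1 𝔓 h]
  obtain ⟨m, hpm, r, hr⟩ := exists_int (O := O) p (α * γ₀ ^ 2) (fun 𝔓 h => (hβ 𝔓 h).le)
  have hm0 : (m : L) ≠ 0 := by
    intro h0
    have : m = 0 := by exact_mod_cast h0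
    exact hpm (this ▸ dvd_zero _)
  -- the representative
  have hrep : algebraMap O L (m * r) = α * (m * γ₀) ^ 2 := by
    rw [map_mul, hr, map_intCast]
    ring
  have hcop : IsCoprime (p : ℤ) m := by
    rw [(Nat.prime_iff_prime_int.1 hp.out).coprime_iff_not_dvd]
    exact hpm
  have hm1 : ∀ 𝔓 : HeightOneSpectrum O, Ov (p : ℤ) 𝔓 → (m : O) ∉ 𝔓.asIdeal := by
    intro 𝔓 h hm
    obtain ⟨u, v, huv⟩ := hcop
    have h1 : (1 : O) = (u : O) * ((p : ℤ) : O) + (v : O) * (m : O) := by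
      rw [← Int.cast_mul, ← Int.cast_mul, ← Int.cast_add, huv, Int.cast_one]
    apply 𝔓.isPrime.ne_top
    rw [Ideal.eq_top_iff_one, h1]
    exact Ideal.add_mem _ (Ideal.mul_mem_left _ _ h) (Ideal.mul_mem_left _ _ hm)
  have hunit : ∀ 𝔓 : HeightOneSpectrum O, Ov (p : ℤ) 𝔓 → m * r ∉ 𝔓.asIdeal := by
    intro 𝔓 h
    rw [← val_eq_one_iff (L := L), hrep, mul_pow, ← mul_assoc, mul_comm α, mul_assoc, map_mul,
      hβ 𝔓 h, mul_one, map_pow]
    have h1 : 𝔓.valuation L (m : L) = 1 := by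
      have := (val_eq_one_iff (L := L) (𝔓 := 𝔓) (m : O)).2 (hm1 𝔓 h)
      rwa [map_intCast] at this
    rw [h1, one_pow]
  obtain ⟨d, hd, e, hde⟩ := comax hp0 (Ideal.span {m * r}) (fun 𝔓 h =>
    ⟨m * r, Ideal.mem_span_singleton_self _, hunit 𝔓 h⟩)
  obtain ⟨u, rfl⟩ := Ideal.mem_span_singleton'.1 hd
  obtain ⟨h', hh'⟩ := exists_poly hc hsq (m * r)
  obtain ⟨q, hq⟩ := exists_poly hc hsq u
  obtain ⟨s, hs⟩ := exists_poly hc hsq e
  refine ⟨m * γ₀, h', mul_ne_zero hm0 hγ₀, by rw [hh', hrep], ?_⟩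
  have hz : aeval θ (q * h' + s * C (p : ℤ) - 1) = 0 := by
    have h1 : algebraMap O L (u * (m * r)) + algebraMap O L (e * ((p : ℤ) : O)) = 1 := by
      rw [← map_add, hde, map_one]
    rw [map_mul (algebraMap O L) u, map_mul (algebraMap O L) e, map_intCast] at h1
    rw [map_sub, map_add, map_mul, map_mul, map_one, hq, hh', hs, aeval_C, eq_intCast]
    linear_combination h1
  have hfm : ((X ^ 3 + C a * X + C b : ℤ[X])).map (Int.castRingHom ℚ) = ff ℚ a b := by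
    simp [ff]
  have hfmon : (X ^ 3 + C a * X + C b : ℤ[X]).Monic := by monicity!
  have hdvd : (X ^ 3 + C a * X + C b : ℤ[X]) ∣ q * h' + s * C (p : ℤ) - 1 := by
    rw [← Polynomial.map_dvd_map (Int.castRingHom ℚ) (RingHom.injective_int _) hfmon, hfm,
      ← hc.minpoly_eq]
    apply minpoly.dvd
    have h1 := aeval_map_algebraMap (A := ℚ) θ (q * h' + s * C (p : ℤ) - 1)
    rw [← h1] at hz
    exact hz
  obtain ⟨t, ht⟩ := hdvd
  have ht' := congrArg (Polynomial.map (Int.castRingHom (ZMod p))) ht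
  simp only [Polynomial.map_sub, Polynomial.map_add, Polynomial.map_mul, Polynomial.map_one,
    Polynomial.map_pow, Polynomial.map_X, Polynomial.map_C, Int.coe_castRingHom, Int.cast_natCast,
    ZMod.natCast_self, map_zero, mul_zero, add_zero] at ht'
  refine ⟨q.map (Int.castRingHom (ZMod p)), -(t.map (Int.castRingHom (ZMod p))), ?_⟩
  linear_combination ht'

end fld

end Pool.Agent.H196.AR458
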